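import Pool.Agent.Helper17.SLD.Goals
import Pool.Agent.Helper12.SL.GA1
import Pool.Agent.Helper12.SL.GA7
import Pool.Agent.Helper42.SLC.Core
import Pool.Agent.Helper45.SL.GA5

/-!
# Project SLD, packet FR: failure of injectivity gives a relation between the rows
-/

namespace Pool.Agent.Helper17.SLD.PkFR

open Pool.Agent.Helper17.SL Pool.Agent.Helper42.SLC
open Pool.Agent.Helper51.SigLeo Pool.Agent.Helper51.SixExp NumberField Module TensorProduct

universe u v w x y z

/-- A CM type with `2 n` embeddings is the range of an injective family of `n` elements. -/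
theorem mem_range (K : Type u) [Field K] [NumberField K] (S : Set (K →+* ℂ)) (hS : IsCMType S)
    (n : ℕ) (hn : finrank ℚ K = 2 * n) (φ : Fin n → K →+* ℂ) (hφ : Function.Injective φ)
    (hφS : ∀ i, φ i ∈ S) (σ : K →+* ℂ) (hσ : σ ∈ S) : ∃ i, φ i = σ := by
  classical
  have hcard : Fintype.card (K →+* ℂ) = 2 * n := by
    rw [NumberField.Embeddings.card K ℂ, hn]
  let A : Finset (K →+* ℂ) := Finset.univ.filter (fun ψ ↦ ψ ∈ S)
  let B : Finset (K →+* ℂ) := Finset.univ.filter (fun ψ ↦ ψ ∉ S)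
  have hAB : A.card + B.card = 2 * n := by
    rw [← hcard, ← Finset.card_univ]
    exact Finset.card_filter_add_card_filter_not (s := Finset.univ) (fun ψ : K →+* ℂ ↦ ψ ∈ S)
  have hinj : Function.Injective (fun ψ : K →+* ℂ ↦ ComplexEmbedding.conjugate ψ) :=
    (ComplexEmbedding.involutive_conjugate K).injective
  have hB : B.card = A.card := by
    have e : B = A.image (fun ψ : K →+* ℂ ↦ ComplexEmbedding.conjugate ψ) := by
      ext ψ
      simp only [A, B, Finset.mem_filter, Finset.mem_univ, true_and, Finset.mem_image]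
      constructor
      · intro h
        refine ⟨ComplexEmbedding.conjugate ψ, ?_, ?_⟩
        · by_contra hc
          exact h ((hS ψ).mpr hc)
        · exact ComplexEmbedding.involutive_conjugate K ψ
      · rintro ⟨ψ', h, rfl⟩
        exact (hS ψ').mp h
    rw [e, Finset.card_image_of_injective _ hinj]
  have hA : A.card = n := by omega
  have hsub : Finset.univ.image φ ⊆ A := by
    intro ψ hψ
    rw [Finset.mem_image] at hψ
    obtain ⟨i, _, rfl⟩ := hψ
    simp only [A, Finset.mem_filter, Finset.mem_univ, true_and]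
    exact hφS i
  have heq : Finset.univ.image φ = A := by
    apply Finset.eq_of_subset_of_card_le hsub
    rw [Finset.card_image_of_injective _ hφ, hA, Finset.card_univ, Fintype.card_fin]
  have hmem : σ ∈ A := by
    simp only [A, Finset.mem_filter, Finset.mem_univ, true_and]
    exact hσ
  rw [← heq, Finset.mem_image] at hmem
  obtain ⟨i, _, hi⟩ := hmem
  exact ⟨i, hi⟩

section

variable {k K H E : Type*} [Field k] [Field K] [Field H] [Algebra K H] [Field E]
  [Fintype (H ≃ₐ[K] H)]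

/-- The `χ`-part is spanned by the images of the `tchi χ' (u j)`. -/
theorem exists_comb (n : ℕ) (j : E →+* k) (χ : (H ≃ₐ[K] H) →* kˣ) (χ' : (H ≃ₐ[K] H) →* Eˣ)
    (hχ : ∀ g, j ((χ' g : Eˣ) : E) = χ g) {m : ℕ} (us : Fin m → Additive (𝓞 H)ˣ)
    (hu : ∀ u, ∃ a : Fin m → E, tchi χ' u = ∑ i, a i • tchi χ' (us i))
    (y : k ⊗[ℤ] Additive (𝓞 H)ˣ) :
    ∃ A : Fin m → k, eChi n χ unitsHom y =
      ∑ i, A i • Phi j (PkGA5.one1 k (Additive (𝓞 H)ˣ)) (tchi χ' (us i)) := by
  induction y using TensorProduct.induction_on with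
  | zero => exact ⟨0, by rw [PkGA5.eChi_zero]; simp⟩
  | tmul c v =>
    obtain ⟨a, ha⟩ := hu v
    refine ⟨fun i ↦ (n : k)⁻¹ * c * j (a i), ?_⟩
    rw [PkGA5.eChi_tmul n j χ χ' hχ, ha, map_sum, Finset.smul_sum]
    refine Finset.sum_congr rfl fun i _ ↦ ?_
    rw [Phi_smul, smul_smul]
  | add y z hy hz =>
    obtain ⟨A, h1⟩ := hy
    obtain ⟨A', h2⟩ := hz
    refine ⟨A + A', ?_⟩
    rw [PkGA5.eChi_add, h1, h2, ← Finset.sum_add_distrib]
    refine Finset.sum_congr rfl fun i _ ↦ ?_
    rw [Pi.add_apply, add_smul]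

end

theorem thm (h1 : S_UP.{u, v, w}) : S_FR.{u, v, w, x} := by
  classical
  intro K _ _ _ H _ _ _ _ _ Ω _ _ _ p _ k _ _ _ _ ιinf ιp S χ Λ n τ hK hS hinj hτS hτ
  have hchar : CharZero k := charZero_of_padic p (k := k)
  have hfd : FiniteDimensional K H := FiniteDimensional.right ℚ K H
  by_contra hcon
  push Not at hcon
  -- descent of the character
  obtain ⟨E, _, χ', hχ'⟩ := PkGA1.thm.{w, x, v} Ω k ιp (H ≃ₐ[K] H) χ
  let lam : E →+* Ω := algebraMap E Ω
  let j : E →+* k := ιp.comp lam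
  have hj : ∀ g, j ((χ' g : Eˣ) : E) = χ g := fun g ↦ hχ' g
  let ε : E →+* ℂ := ιinf.comp lam
  let ρ : Fin n → H →+* ℂ := fun i ↦ ιinf.comp (τ i)
  -- the hypothesis of UP
  have hφinj : Function.Injective (fun i ↦ (ρ i).comp (algebraMap K H)) := by
    intro i i' h
    apply hτ
    ext y
    apply ιinf.injective
    exact RingHom.congr_fun h y
  have hρ : ∀ σ : H →+* ℂ, σ.comp (algebraMap K H) ∈ S →
      ∃ i, ∃ g : H ≃ₐ[K] H, σ = (ρ i).comp (g : H →+* H) := by
    intro σ hσ
    obtain ⟨i, hi⟩ := mem_range K S hS n hK (fun i ↦ (ρ i).comp (algebraMap K H)) hφinj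
      (fun i ↦ hτS i) _ hσ
    obtain ⟨g, hg⟩ := PkGA7.thm.{u, v, 0} K H ℂ (ρ i) σ hi
    exact ⟨i, g, hg⟩
  have hup : ∀ σ : H →+* ℂ, (∃ c : H ≃ₐ[K] H, ComplexEmbedding.conjugate σ =
      σ.comp (c : H →+* H) ∧ χ' c ≠ 1) ∨
      ∃ i, ∃ g : H ≃ₐ[K] H, σ = (ρ i).comp (g : H →+* H) ∨
        ComplexEmbedding.conjugate σ = (ρ i).comp (g : H →+* H) := by
    intro σ
    right
    by_cases hσ : σ.comp (algebraMap K H) ∈ S
    · obtain ⟨i, g, hg⟩ := hρ σ hσ
      exact ⟨i, g, Or.inl hg⟩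
    · have hσ' : (ComplexEmbedding.conjugate σ).comp (algebraMap K H) ∈ S := by
        by_contra hc
        apply hσ
        rw [hS]
        exact hc
      obtain ⟨i, g, hg⟩ := hρ _ hσ'
      exact ⟨i, g, Or.inr hg⟩
  have hUP := h1 K H E ε χ' n ρ hup
  -- the vectors `r(u)`
  let r : Additive (𝓞 H)ˣ → Fin n → k := fun u i ↦ tw χ (logUnits Λ (ιp.comp (τ i))) u
  have hspan : Submodule.span k (Set.range r) = ⊤ := by
    by_contra hne
    obtain ⟨f, hf0, hf⟩ := Submodule.exists_le_ker_of_lt_top _ (lt_top_iff_ne_top.mpr hne)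
    obtain ⟨u, hu⟩ := hcon (fun i ↦ f (Pi.single i 1)) (by
      intro h0
      apply hf0
      apply LinearMap.pi_ext'
      intro i
      ext
      exact congrFun h0 i)
    apply hu
    have h2 : f (r u) = 0 := hf (Submodule.subset_span ⟨u, rfl⟩)
    rw [LinearMap.pi_apply_eq_sum_univ f (r u)] at h2
    rw [← h2]
    refine Finset.sum_congr rfl fun i _ ↦ ?_
    rw [smul_eq_mul, mul_comm]
    congr 2
    funext i'
    rw [Pi.single_apply]
    simp only [eq_comm]
  obtain ⟨us, hli⟩ : ∃ us : Fin n → Additive (𝓞 H)ˣ, LinearIndependent k (fun i ↦ r (us i)) := by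
    obtain ⟨f, hf1, _, hf3⟩ := Submodule.exists_fun_fin_finrank_span_eq k (Set.range r)
    have hfr : finrank k (Submodule.span k (Set.range r)) = n := by
      rw [hspan, finrank_top, finrank_fin_fun]
    choose us hus using hf1
    refine ⟨fun i ↦ us (Fin.cast hfr.symm i), ?_⟩
    have h3 := hf3.comp (Fin.cast hfr.symm) (Fin.cast_injective _)
    have e : (fun i ↦ r (us (Fin.cast hfr.symm i))) = f ∘ Fin.cast hfr.symm := by
      funext i
      exact hus _
    rw [e]
    exact h3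
  have hli' : ∀ a : Fin n → k, (∀ i, ∑ q, a q * tw χ (logUnits Λ (ιp.comp (τ i))) (us q) = 0) →
      ∀ q, a q = 0 := by
    intro a ha
    rw [Fintype.linearIndependent_iff] at hli
    apply hli a
    funext i
    rw [Finset.sum_apply, Pi.zero_apply, ← ha i]
    rfl
  -- the span over `E`
  have hcomb : ∀ u, ∃ a : Fin n → E, tchi χ' u = ∑ i, a i • tchi χ' (us i) := by
    intro u
    obtain ⟨e, he0, he⟩ := hUP (Fin.cons u us)
    rw [Fin.sum_univ_succ] at he
    simp only [Fin.cons_zero, Fin.cons_succ] at he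
    by_cases h0 : e 0 = 0
    · exfalso
      rw [h0, zero_smul, zero_add] at he
      apply he0
      have h4 : ∀ q : Fin n, j (e q.succ) = 0 := by
        apply hli' (fun q ↦ j (e q.succ))
        intro i
        have h5 := congrArg (Phi j (logUnits Λ (ιp.comp (τ i)))) he
        rw [map_sum, map_zero] at h5
        rw [← h5]
        refine Finset.sum_congr rfl fun q _ ↦ ?_
        rw [Phi_smul, Phi_eq_tw j χ' χ hj, smul_eq_mul]
      funext q
      refine Fin.cases h0 (fun q ↦ ?_) q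
      exact (map_eq_zero j).mp (h4 q)
    · refine ⟨fun i ↦ -(e 0)⁻¹ * e i.succ, ?_⟩
      have h6 : e 0 • tchi χ' u = -∑ i : Fin n, e i.succ • tchi χ' (us i) :=
        eq_neg_of_add_eq_zero_left he
      have h7 : tchi χ' u = (e 0)⁻¹ • (e 0 • tchi χ' u) := by
        rw [smul_smul, inv_mul_cancel₀ h0, one_smul]
      rw [h7, h6, smul_neg, Finset.smul_sum, ← Finset.sum_neg_distrib]
      refine Finset.sum_congr rfl fun i _ ↦ ?_
      show _ = (-(e 0)⁻¹ * e i.succ) • tchi χ' (us i)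
      rw [neg_mul, neg_smul, smul_smul]
  -- the contradiction
  apply hinj
  intro y hy
  obtain ⟨A, hA⟩ := exists_comb (finrank K H) j χ χ' hj us hcomb y
  have hA0 : ∀ q, A q = 0 := by
    apply hli' A
    intro i
    have h8 := hy (logUnits Λ (ιp.comp (τ i))) ⟨τ i, hτS i, rfl⟩
    rw [hA, map_sum] at h8
    rw [← h8]
    refine Finset.sum_congr rfl fun q _ ↦ ?_
    rw [map_smul, PkGA5.extHom_Phi, Phi_eq_tw j χ' χ hj, smul_eq_mul]
  rw [hA]
  apply Finset.sum_eq_zero
  intro q _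
  rw [hA0 q, zero_smul]

end Pool.Agent.Helper17.SLD.PkFR
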